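import Pool.Agent.U985.BM.A

set_option autoImplicit false
set_option maxHeartbeats 4000000

/-!
# L-functions of elliptic curves: the analytic data
-/

namespace Pool.Agent.U985.BM

open Complex Filter Topology Set
open Pool.Agent.U985.BG (zeta_part)

/-- the two roots -/
theorem roots {p : ℕ} (hp : 0 < p) {c : ℝ} (hc : |c| ≤ 2 * Real.sqrt p) : ∃ α β : ℂ,
    α + β = c ∧ α * β = p ∧ ‖α‖ = Real.sqrt p ∧ ‖β‖ = Real.sqrt p := by
  set y : ℝ := Real.sqrt (4 * p - c ^ 2) with hy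
  have h1 : c ^ 2 ≤ 4 * p := by
    have h2 : |c| ^ 2 ≤ (2 * Real.sqrt p) ^ 2 := pow_le_pow_left₀ (abs_nonneg c) hc 2
    rw [sq_abs, mul_pow, Real.sq_sqrt (Nat.cast_nonneg _)] at h2
    linarith
  have hy2 : y ^ 2 = 4 * p - c ^ 2 := Real.sq_sqrt (by linarith)
  have hn : ∀ z : ℂ, normSq z = p → ‖z‖ = Real.sqrt p := by
    intro z hz
    rw [← hz, Complex.norm_def]
  refine ⟨⟨c / 2, y / 2⟩, ⟨c / 2, -(y / 2)⟩, ?_, ?_, ?_, ?_⟩
  · apply Complex.ext
    · simp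
    · simp
  · apply Complex.ext
    · simp
      nlinarith
    · simp
      ring
  · apply hn
    rw [normSq_mk]
    nlinarith
  · apply hn
    rw [normSq_mk]
    nlinarith

/-- products over the rational primes with factors between `w^(-2)` and `w^2` -/
theorem prod_bounds {a : ℝ} (ha : 1 < a) {f : Nat.Primes → ℂ}
    (hf : ∀ p : Nat.Primes, ‖f p‖ ≤ ((1 - ((p : ℕ) : ℝ) ^ (-a))⁻¹) ^ 2 ∧
      (((1 - ((p : ℕ) : ℝ) ^ (-a))⁻¹) ^ 2)⁻¹ ≤ ‖f p‖) :
    ‖∏' p, f p‖ ≤ ‖riemannZeta (a : ℂ)‖ ^ 2 ∧ (‖riemannZeta (a : ℂ)‖ ^ 2)⁻¹ ≤ ‖∏' p, f p‖ := by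
  classical
  obtain ⟨hZ1, hZ⟩ := zeta_part ha
  set Z : ℝ := ‖riemannZeta (a : ℂ)‖ with hZd
  set w : Nat.Primes → ℝ := fun p => (1 - ((p : ℕ) : ℝ) ^ (-a))⁻¹ with hw
  have hw1 : ∀ p, 1 ≤ w p := by
    intro p
    have hp1 : (1 : ℝ) < ((p : ℕ) : ℝ) := by exact_mod_cast p.2.one_lt
    have h2 : 0 < ((p : ℕ) : ℝ) ^ (-a) := by positivity
    have h3 : ((p : ℕ) : ℝ) ^ (-a) < 1 := Real.rpow_lt_one_of_one_lt_of_neg hp1 (by linarith)
    exact (one_le_inv₀ (by linarith)).2 (by linarith)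
  have hfac : ∀ p, ‖f p‖ ≤ w p ^ 2 ∧ (w p ^ 2)⁻¹ ≤ ‖f p‖ := hf
  by_cases hm : Multipliable f
  · have hP := hm.hasProd.norm
    have hb : ∀ F : Finset Nat.Primes, (∏ p ∈ F, w p) ^ 2 ≤ Z ^ 2 := by
      intro F
      apply pow_le_pow_left₀ _ (hZ F)
      exact Finset.prod_nonneg fun v _ => by linarith [hw1 v]
    constructor
    · apply le_of_tendsto hP
      filter_upwards with F
      calc ∏ v ∈ F, ‖f v‖ ≤ ∏ v ∈ F, w v ^ 2 :=
            Finset.prod_le_prod (fun _ _ => norm_nonneg _) fun v _ => (hfac v).1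
        _ = (∏ v ∈ F, w v) ^ 2 := Finset.prod_pow _ _ _
        _ ≤ _ := hb F
    · apply ge_of_tendsto hP
      filter_upwards with F
      have h0 : 0 < ∏ v ∈ F, w v := Finset.prod_pos fun v _ => by linarith [hw1 v]
      calc (Z ^ 2)⁻¹ ≤ ((∏ v ∈ F, w v) ^ 2)⁻¹ := inv_anti₀ (by positivity) (hb F)
        _ = ∏ v ∈ F, (w v ^ 2)⁻¹ := by
            rw [← Finset.prod_pow]
            exact (Finset.prod_inv_distrib (fun v => w v ^ 2)).symm
        _ ≤ _ := by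
            apply Finset.prod_le_prod
            · intro v _
              have := hw1 v
              positivity
            · intro v _
              exact (hfac v).2
  · rw [tprod_eq_one_of_not_multipliable hm, norm_one]
    have : 1 ≤ Z ^ 2 := one_le_pow₀ hZ1
    exact ⟨this, inv_le_one_of_one_le₀ this⟩

/-- one factor `1 - u` -/
theorem one_sub {r : ℝ} (hr0 : 0 < r) (hr1 : r < 1) {u : ℂ} (hu : ‖u‖ ≤ r) :
    ‖(1 - u)⁻¹‖ ≤ (1 - r)⁻¹ ∧ ((1 - r)⁻¹)⁻¹ ≤ ‖(1 - u)⁻¹‖ := by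
  have h1 : 1 - r ≤ ‖1 - u‖ := by
    have := norm_sub_norm_le (1 : ℂ) u
    rw [norm_one] at this
    linarith
  have h2 : ‖1 - u‖ ≤ (1 - r)⁻¹ := by
    have h3 : ‖1 - u‖ ≤ 1 + r := by
      refine (norm_sub_le _ _).trans ?_
      rw [norm_one]
      linarith
    refine h3.trans ?_
    rw [← one_div, le_div_iff₀ (by linarith)]
    nlinarith
  rw [norm_inv]
  exact ⟨inv_anti₀ (by linarith) h1, inv_anti₀ (by linarith) h2⟩

/-- a local factor -/
theorem local_factor {p : ℕ} (hp : p.Prime) {a : ℝ} (ha : 1 < a) {s : ℂ} (hs : a + 1 / 2 ≤ s.re)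
    {c : ℝ} {B : Prop} [Decidable B] (hc : ¬ B → |c| ≤ 2 * Real.sqrt p) (hcB : B → |c| ≤ 1) :
    ‖(1 - (c : ℂ) * (p : ℂ) ^ (-s) + (if B then 0 else (p : ℂ) ^ (1 - 2 * s)))⁻¹‖ ≤
        ((1 - (p : ℝ) ^ (-a))⁻¹) ^ 2 ∧
      (((1 - (p : ℝ) ^ (-a))⁻¹) ^ 2)⁻¹ ≤
        ‖(1 - (c : ℂ) * (p : ℂ) ^ (-s) + (if B then 0 else (p : ℂ) ^ (1 - 2 * s)))⁻¹‖ := by
  have hp1 : (1 : ℝ) < p := by exact_mod_cast hp.one_lt
  have hpc : (p : ℂ) ≠ 0 := by exact_mod_cast hp.ne_zero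
  set r : ℝ := (p : ℝ) ^ (-a) with hr
  have hr0 : 0 < r := by positivity
  have hr1 : r < 1 := Real.rpow_lt_one_of_one_lt_of_neg hp1 (by linarith)
  set X : ℂ := (p : ℂ) ^ (-s) with hX
  have hXn : ‖X‖ * Real.sqrt p ≤ r := by
    rw [hX, Complex.norm_natCast_cpow_of_pos hp.pos, Real.sqrt_eq_rpow, ← Real.rpow_add (by linarith)]
    apply Real.rpow_le_rpow_of_exponent_le hp1.le
    rw [neg_re]; linarith
  have hsp : 1 ≤ Real.sqrt p := by
    rw [Real.one_le_sqrt]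
    exact hp1.le
  have hX1 : ‖X‖ ≤ r := by nlinarith [norm_nonneg X]
  have hw1 : 1 ≤ (1 - r)⁻¹ := (one_le_inv₀ (by linarith)).2 (by linarith)
  by_cases hB : B
  · rw [if_pos hB, add_zero]
    have h1 : ‖(c : ℂ) * X‖ ≤ r := by
      rw [norm_mul, Complex.norm_real, Real.norm_eq_abs]
      calc |c| * ‖X‖ ≤ 1 * ‖X‖ := mul_le_mul_of_nonneg_right (hcB hB) (norm_nonneg _)
        _ ≤ r := by rw [one_mul]; exact hX1
    obtain ⟨h2, h3⟩ := one_sub hr0 hr1 h1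
    have hw0 : 0 < (1 - r)⁻¹ := by linarith
    constructor
    · refine h2.trans ?_
      nlinarith
    · refine le_trans ?_ h3
      apply inv_anti₀ hw0
      nlinarith
  · rw [if_neg hB]
    obtain ⟨α, β, e1, e2, e3, e4⟩ := roots hp.pos (hc hB)
    have e5 : (p : ℂ) ^ (1 - 2 * s) = p * X ^ 2 := by
      rw [show (1 : ℂ) - 2 * s = 1 + (-s + -s) by ring, Complex.cpow_add _ _ hpc,
        Complex.cpow_add _ _ hpc, Complex.cpow_one, hX]
      ring
    have e6 : 1 - (c : ℂ) * X + (p : ℂ) ^ (1 - 2 * s) = (1 - α * X) * (1 - β * X) := by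
      rw [e5, ← e1, ← e2]
      ring
    rw [e6, mul_inv, norm_mul]
    obtain ⟨h2, h3⟩ := one_sub hr0 hr1 (u := α * X) (by rw [norm_mul, e3, mul_comm]; exact hXn)
    obtain ⟨h4, h5⟩ := one_sub hr0 hr1 (u := β * X) (by rw [norm_mul, e4, mul_comm]; exact hXn)
    have hw0 : 0 < (1 - r)⁻¹ := by linarith
    constructor
    · rw [sq]
      exact mul_le_mul h2 h4 (norm_nonneg _) hw0.le
    · rw [sq, mul_inv]
      exact mul_le_mul h3 h5 (by positivity) (norm_nonneg _)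

/-- real functions -/
theorem conj_entire {F : ℂ → ℂ} (hF : Differentiable ℂ F) {x : ℝ}
    (h : ∀ s : ℂ, x < s.re → F ((starRingEnd ℂ) s) = (starRingEnd ℂ) (F s)) (s : ℂ) :
    F ((starRingEnd ℂ) s) = (starRingEnd ℂ) (F s) := by
  set G : ℂ → ℂ := fun z => (starRingEnd ℂ) (F ((starRingEnd ℂ) z)) with hG
  have hGd : Differentiable ℂ G := by
    intro z
    have h1 := (hF ((starRingEnd ℂ) z)).hasDerivAt.conj_conj
    rw [Complex.conj_conj] at h1
    exact h1.differentiableAt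
  have h1 : AnalyticOnNhd ℂ F univ := fun z _ => hF.analyticAt z
  have h2 : AnalyticOnNhd ℂ G univ := fun z _ => hGd.analyticAt z
  have h3 : G =ᶠ[𝓝 ((x + 1 : ℝ) : ℂ)] F := by
    have h4 : {z : ℂ | x < z.re} ∈ 𝓝 ((x + 1 : ℝ) : ℂ) := by
      apply (isOpen_lt continuous_const Complex.continuous_re).mem_nhds
      show x < ((x + 1 : ℝ) : ℂ).re
      rw [ofReal_re]
      linarith
    filter_upwards [h4] with z hz
    have h5 := h z hz
    simp only [hG]
    rw [h5, Complex.conj_conj]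
  have h6 := h2.eq_of_eventuallyEq h1 h3
  have h7 := congrFun h6 s
  simp only [hG] at h7
  rw [← h7, Complex.conj_conj]

/-- Euler products with real coefficients -/
theorem conj_tprod {f g : Nat.Primes → ℂ} (h : ∀ p, g p = (starRingEnd ℂ) (f p)) :
    ∏' p, g p = (starRingEnd ℂ) (∏' p, f p) := by
  have hc : Continuous (starRingEnd ℂ) := Complex.continuous_conj
  have hg : g = fun p => (starRingEnd ℂ) (f p) := funext h
  have hf : f = fun p => (starRingEnd ℂ) (g p) := by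
    funext p
    rw [h, Complex.conj_conj]
  by_cases hm : Multipliable f
  · have h1 : HasProd (fun p => (starRingEnd ℂ) (f p)) ((starRingEnd ℂ) (∏' p, f p)) :=
      hm.hasProd.map (starRingEnd ℂ) hc
    rw [hg]
    exact h1.tprod_eq
  · have hm' : ¬ Multipliable g := by
      intro hmg
      apply hm
      rw [hf]
      exact hmg.map (starRingEnd ℂ) hc
    rw [tprod_eq_one_of_not_multipliable hm, tprod_eq_one_of_not_multipliable hm', map_one]

end Pool.Agent.U985.BM
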