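import Pool.Agent.U985.BG.I
import Pool.Agent.TH809.MZ.Gam
import Pool.Agent.H855R2.SF.Data
import Pool.Agent.H370R2.DirGood

set_option autoImplicit false
set_option maxHeartbeats 4000000

/-!
# Entire Artin L-functions of a given degree: the analytic data
-/

namespace Pool.Agent.U985.BM

open Complex Filter Topology Set
open Pool.Agent.TH809.MZ (pow_gauss gammaR_low)
open Pool.Agent.U985.BG (gg dens_final norm_exp_sq prod_mono_real zeta_part DD exists_s cos_shift)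
open H855R2.SF (AFam pl refl_of_fe)


/-- The analytic data of an entire L-function of degree `d`: conductor `N`, gamma factor
`∏ Γ_ℝ(s + m_j/2)`, `m_j ≤ R`, bounds to the right of `1` (from the Euler product), functional
equation. -/
structure AM (R d : ℕ) where
  N : ℕ
  m : Fin d → ℕ
  W : ℂ
  L : ℂ → ℂ
  one_le : 1 ≤ N
  m_le : ∀ j, m j ≤ R
  W_norm : ‖W‖ = 1
  diff : Differentiable ℂ L
  right : ∀ a : ℝ, 1 < a → ∀ s : ℂ, a ≤ s.re →
    ‖L s‖ ≤ ‖riemannZeta (a : ℂ)‖ ^ d ∧ (‖riemannZeta (a : ℂ)‖ ^ d)⁻¹ ≤ ‖L s‖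
  fe : ∀ s : ℂ, L s * ∏ j, (Gammaℝ (1 - s + (((m j : ℝ) / 2 : ℝ) : ℂ)))⁻¹ =
    W * (N : ℂ) ^ (1 / 2 - s) * (starRingEnd ℂ) (L (1 - (starRingEnd ℂ) s)) *
      ∏ j, (Gammaℝ (s + (((m j : ℝ) / 2 : ℝ) : ℂ)))⁻¹
  order : ∃ A : ℝ, ∀ s : ℂ, -1 / 4 ≤ s.re → s.re ≤ 5 / 4 →
    ‖L s‖ ≤ Real.exp (A * (1 + |s.im|) ^ A)

/-- the conductor at height `t` -/
noncomputable def QQ {R d : ℕ} (A : AM R d) (t : ℝ) : ℝ := A.N * (1 + |t|) ^ d

theorem QQ_one {R d : ℕ} (A : AM R d) (t : ℝ) : 1 ≤ QQ A t := by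
  unfold QQ
  have h1 : (1 : ℝ) ≤ A.N := by exact_mod_cast A.one_le
  have h2 : (1 : ℝ) ≤ (1 + |t|) ^ d := one_le_pow₀ (by linarith [abs_nonneg t])
  nlinarith

theorem QQ_shift {R d : ℕ} (A : AM R d) (t u : ℝ) : QQ A (t + u) ≤ (1 + |u|) ^ (d : ℝ) * QQ A t := by
  unfold QQ
  rw [Real.rpow_natCast]
  have h2 : 1 + |t + u| ≤ (1 + |u|) * (1 + |t|) := by
    have := abs_add_le t u
    nlinarith [abs_nonneg t, abs_nonneg u, mul_nonneg (abs_nonneg t) (abs_nonneg u)]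
  have h3 : (1 + |t + u|) ^ d ≤ ((1 + |u|) * (1 + |t|)) ^ d := pow_le_pow_left₀ (by positivity) h2 d
  rw [mul_pow] at h3
  calc (A.N : ℝ) * (1 + |t + u|) ^ d ≤ A.N * ((1 + |u|) ^ d * (1 + |t|) ^ d) := by gcongr
    _ = _ := by ring

/-- two-sided bounds on a line `Re s = a > 1` -/
theorem right_AL (R d : ℕ) {a : ℝ} (ha : 1 < a) : ∃ B : ℝ, 1 ≤ B ∧ ∀ (A : AM R d) (s : ℂ), a ≤ s.re →
    ‖A.L s‖ ≤ B ∧ 1 / B ≤ ‖A.L s‖ := by
  refine ⟨‖riemannZeta (a : ℂ)‖ ^ d, one_le_pow₀ (zeta_part ha).1, fun A s hs => ?_⟩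
  rw [one_div]
  exact A.right a ha s hs

/-- the reflection -/
theorem refl_AL {R d : ℕ} (A : AM R d) {x t : ℝ} (hx0 : 0 ≤ x) (hx1 : x ≤ 3 / 4) :
    ‖A.L ⟨1 / 2 - x, t⟩‖ ≤ (16 * ((R : ℝ) + 1)) ^ d * QQ A t ^ x * ‖A.L ⟨1 / 2 + x, t⟩‖ := by
  have hmu : ∀ j : Fin d, ((fun j : Fin d => -(((A.m j : ℝ) / 2 : ℝ) : ℂ)) j).re < 1 / 2 := by
    intro j
    simp only [neg_re, ofReal_re]
    have : (0 : ℝ) ≤ (A.m j : ℝ) / 2 := by positivity
    linarith
  have h := refl_of_fe (m := d) (N := A.N) (by have := A.one_le; omega)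
    (fun j : Fin d => -(((A.m j : ℝ) / 2 : ℝ) : ℂ)) hmu (root := A.W) A.W_norm (f := A.L)
    (by
      intro s
      have := A.fe s
      simpa only [map_neg, conj_ofReal, sub_neg_eq_add] using this) (t := t) hx0 hx1
  refine h.trans ?_
  apply mul_le_mul_of_nonneg_right _ (norm_nonneg _)
  have h1 : ∀ j : Fin d, 1 + ‖-(((A.m j : ℝ) / 2 : ℝ) : ℂ) - t * I‖ ≤ ((R : ℝ) + 1) * (1 + |t|) := by
    intro j
    have h2 : ‖-(((A.m j : ℝ) / 2 : ℝ) : ℂ) - t * I‖ ≤ ‖(((A.m j : ℝ) / 2 : ℝ) : ℂ)‖ + |t| := by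
      refine (norm_sub_le _ _).trans ?_
      have e : ‖(t : ℂ)‖ = |t| := by rw [Complex.norm_real, Real.norm_eq_abs]
      rw [norm_neg, norm_mul, norm_I, mul_one, e]
    have h4 : (A.m j : ℝ) ≤ R := by exact_mod_cast A.m_le j
    have h5 : (0 : ℝ) ≤ A.m j := Nat.cast_nonneg _
    have h3 : ‖(((A.m j : ℝ) / 2 : ℝ) : ℂ)‖ ≤ R := by
      rw [Complex.norm_real, Real.norm_eq_abs, abs_of_nonneg (by positivity)]
      linarith
    have h6 : (0 : ℝ) ≤ R * |t| := by positivity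
    linarith
  have h2 : ∏ j : Fin d, (1 + ‖-(((A.m j : ℝ) / 2 : ℝ) : ℂ) - t * I‖) ≤ ((R : ℝ) + 1) ^ d * (1 + |t|) ^ d := by
    calc ∏ j : Fin d, (1 + ‖-(((A.m j : ℝ) / 2 : ℝ) : ℂ) - t * I‖) ≤ ∏ _j : Fin d, (((R : ℝ) + 1) * (1 + |t|)) :=
          Finset.prod_le_prod (fun _ _ => by positivity) fun j _ => h1 j
      _ = ((R : ℝ) + 1) ^ d * (1 + |t|) ^ d := by simp [mul_pow]
  have hN0 : (0 : ℝ) ≤ A.N := Nat.cast_nonneg _
  have hR0 : (0 : ℝ) ≤ R := Nat.cast_nonneg _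
  have hd : (1 : ℝ) ≤ ((R : ℝ) + 1) ^ d := one_le_pow₀ (by linarith)
  calc (16 : ℝ) ^ d * ((A.N : ℝ) * ∏ j : Fin d, (1 + ‖-(((A.m j : ℝ) / 2 : ℝ) : ℂ) - t * I‖)) ^ x
      ≤ 16 ^ d * (((R : ℝ) + 1) ^ d * QQ A t) ^ x := by
        apply mul_le_mul_of_nonneg_left _ (by positivity)
        apply Real.rpow_le_rpow _ _ hx0
        · apply mul_nonneg hN0
          exact Finset.prod_nonneg fun _ _ => by positivity
        · unfold QQ
          calc (A.N : ℝ) * ∏ j : Fin d, (1 + ‖-(((A.m j : ℝ) / 2 : ℝ) : ℂ) - t * I‖)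
              ≤ A.N * (((R : ℝ) + 1) ^ d * (1 + |t|) ^ d) := mul_le_mul_of_nonneg_left h2 hN0
            _ = _ := by ring
    _ = 16 ^ d * ((((R : ℝ) + 1) ^ d) ^ x * QQ A t ^ x) := by
        rw [Real.mul_rpow (by positivity) (by linarith [QQ_one A t])]
    _ ≤ 16 ^ d * ((((R : ℝ) + 1) ^ d) ^ (1 : ℝ) * QQ A t ^ x) := by
        apply mul_le_mul_of_nonneg_left _ (by positivity)
        apply mul_le_mul_of_nonneg_right _ (by have := QQ_one A t; positivity)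
        exact Real.rpow_le_rpow_of_exponent_le hd (by linarith)
    _ = _ := by
        rw [Real.rpow_one, mul_pow]
        ring

/-- the family -/
theorem afam (R d : ℕ) : AFam (ι := AM R d) d (fun A => A.L) (fun A t => QQ A t) where
  m0 := Nat.cast_nonneg _
  Q1 := QQ_one
  Qs := QQ_shift
  diff := fun A => A.diff
  order := fun A => A.order
  right := by
    intro δ hδ
    obtain ⟨B, hB1, hB⟩ := right_AL R d (a := 1 + δ) (by linarith)
    refine ⟨B, fun A s hs => ?_⟩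
    refine (hB A s hs).1.trans ?_
    apply le_mul_of_one_le_right (by linarith)
    exact Real.one_le_rpow (QQ_one A _) hδ.le
  refl := ⟨(16 * ((R : ℝ) + 1)) ^ d, by positivity, fun A x t hx0 hx1 => refl_AL A hx0 hx1⟩

/-- the convexity bound -/
theorem convex_AL (R d : ℕ) (ε : ℝ) (hε : 0 < ε) : ∃ C : ℝ, 0 ≤ C ∧ ∀ (A : AM R d) (t : ℝ),
    ‖A.L ⟨1 / 2, t⟩‖ ≤ C * QQ A t ^ (1 / 4 + ε) := by
  set δ : ℝ := min ε (1 / 4) with hδ
  have hδ0 : 0 < δ := by positivity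
  have hδ1 : δ ≤ 1 / 4 := min_le_right _ _
  have hδ2 : δ ≤ ε := min_le_left _ _
  obtain ⟨B, hB1, hB⟩ := right_AL R d (a := 1 + δ) (by linarith)
  obtain ⟨C, hC0, hC⟩ := pl (afam R d) (a := -δ) (b := 1 + δ) (ea := 1 / 2 + δ) (eb := 0)
    (Ca := (16 * ((R : ℝ) + 1)) ^ d * B) (Cb := B) (by linarith) (by linarith) (by linarith) (by linarith) le_rfl
    (by positivity) (by linarith)
  refine ⟨C, hC0, fun A t => ?_⟩
  have h1 := hC A (fun u => by
      have := refl_AL A (x := 1 / 2 + δ) (t := u) (by linarith) (by linarith)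
      have e1 : (1 / 2 - (1 / 2 + δ)) = -δ := by ring
      have e2 : (1 / 2 + (1 / 2 + δ)) = 1 + δ := by ring
      rw [e1, e2] at this
      have h2 := (hB A ⟨1 + δ, u⟩ le_rfl).1
      have hQ := QQ_one A u
      calc ‖A.L ⟨-δ, u⟩‖ ≤ _ := this
        _ ≤ (16 * ((R : ℝ) + 1)) ^ d * QQ A u ^ (1 / 2 + δ) * B := by gcongr
        _ = _ := by ring)
    (fun u => by
      rw [Real.rpow_zero, mul_one]
      exact (hB A ⟨1 + δ, u⟩ le_rfl).1)
    ⟨1 / 2, t⟩ (by show -δ ≤ 1 / 2; linarith) (by show 1 / 2 ≤ 1 + δ; linarith)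
  refine h1.trans ?_
  apply mul_le_mul_of_nonneg_left _ hC0
  show QQ A t ^ ((1 / 2 + δ) + (0 - (1 / 2 + δ)) / (1 + δ - -δ) * (1 / 2 - -δ)) ≤ QQ A t ^ (1 / 4 + ε)
  apply Real.rpow_le_rpow_of_exponent_le (QQ_one A t)
  have e3 : (1 / 2 + δ) + (0 - (1 / 2 + δ)) / (1 + δ - -δ) * (1 / 2 - -δ) = (1 / 2 + δ) / 2 := by
    have : (1 + δ - -δ) ≠ 0 := by linarith
    field_simp
    ring
  rw [e3]
  linarith

/-- the lower bound of the quotient of the gamma factors, at all heights -/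
theorem gam_low_all {x : ℝ} (hx0 : 1 / 2 < x) (hx1 : x ≤ 3 / 4) {k : ℝ} (hk : k = 0 ∨ 1 / 2 ≤ k) :
    ∃ c : ℝ, 0 < c ∧ ∀ t : ℝ, c * (1 + |t|) ^ x ≤
      ‖(Gammaℝ (⟨1 / 2 - x, t⟩ + (k : ℂ)))⁻¹‖ * ‖Gammaℝ (⟨1 / 2 + x, -t⟩ + (k : ℂ))‖ := by
  set F : ℝ → ℝ := fun t => ‖(Gammaℝ (⟨1 / 2 - x, t⟩ + (k : ℂ)))⁻¹‖ *
    ‖Gammaℝ (⟨1 / 2 + x, -t⟩ + (k : ℂ))‖ with hF
  have hk0 : (0 : ℝ) ≤ k := by rcases hk with h | h <;> linarith
  have hne1 : ∀ t : ℝ, Gammaℝ (⟨1 / 2 + x, -t⟩ + (k : ℂ)) ≠ 0 := by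
    intro t
    apply Gammaℝ_ne_zero_of_re_pos
    rw [add_re, ofReal_re]
    show 0 < 1 / 2 + x + k
    linarith
  have hne2 : ∀ t : ℝ, Gammaℝ (⟨1 / 2 - x, t⟩ + (k : ℂ)) ≠ 0 := by
    intro t
    rcases hk with rfl | hk1
    · rw [ofReal_zero, add_zero]
      intro h
      rw [Gammaℝ_eq_zero_iff] at h
      obtain ⟨n, hn⟩ := h
      have h3 := congrArg re hn
      have h4 : (-(2 * (n : ℂ))).re = -(2 * (n : ℝ)) := by simp
      rw [h4] at h3
      have h5 : 1 / 2 - x = -(2 * (n : ℝ)) := h3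
      rcases Nat.eq_zero_or_pos n with h6 | h6
      · subst h6
        push_cast at h5
        linarith
      · have : (1 : ℝ) ≤ n := by exact_mod_cast h6
        linarith
    · apply Gammaℝ_ne_zero_of_re_pos
      rw [add_re, ofReal_re]
      show 0 < 1 / 2 - x + k
      linarith
  have hmk : ∀ a : ℝ, Continuous fun t : ℝ => (⟨a, t⟩ : ℂ) := by
    intro a
    have e : (fun t : ℝ => (⟨a, t⟩ : ℂ)) = fun t : ℝ => (a : ℂ) + t * I := by
      funext t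
      apply Complex.ext <;> simp
    rw [e]
    fun_prop
  have hc1 : Continuous fun t : ℝ => (Gammaℝ (⟨1 / 2 - x, t⟩ + (k : ℂ)))⁻¹ :=
    differentiable_Gammaℝ_inv.continuous.comp ((hmk _).add continuous_const)
  have hc2 : Continuous fun t : ℝ => (Gammaℝ (⟨1 / 2 + x, -t⟩ + (k : ℂ)))⁻¹ :=
    differentiable_Gammaℝ_inv.continuous.comp (((hmk (1 / 2 + x)).comp continuous_neg).add continuous_const)
  have hFc : Continuous F := by
    apply hc1.norm.mul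
    have e : (fun t : ℝ => ‖Gammaℝ (⟨1 / 2 + x, -t⟩ + (k : ℂ))‖) =
        fun t : ℝ => ‖(Gammaℝ (⟨1 / 2 + x, -t⟩ + (k : ℂ)))⁻¹‖⁻¹ := by
      funext t
      rw [norm_inv, inv_inv]
    rw [e]
    apply hc2.norm.inv₀
    intro t
    exact norm_ne_zero_iff.2 (inv_ne_zero (hne1 t))
  have hFpos : ∀ t, 0 < F t := by
    intro t
    have a1 := norm_pos_iff.2 (inv_ne_zero (hne2 t))
    have a2 := norm_pos_iff.2 (hne1 t)
    exact mul_pos a1 a2
  obtain ⟨t0, -, ht0⟩ := (isCompact_Icc (a := (-1 : ℝ)) (b := 1)).exists_isMinOn ⟨0, by norm_num⟩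
    hFc.continuousOn
  refine ⟨min (1 / 2000) (F t0 / 2), lt_min (by norm_num) (by have := hFpos t0; positivity), fun t => ?_⟩
  rcases le_total 1 |t| with h | h
  · set w : ℂ := ⟨1 / 2 - x, t⟩ + (k : ℂ) with hw
    have hwim : w.im = t := by rw [hw, add_im, ofReal_im, add_zero]
    have hwre : -2 ≤ w.re := by
      rw [hw, add_re, ofReal_re]
      show -2 ≤ 1 / 2 - x + k
      linarith
    have h1 := gammaR_low (w := w) (x := x) (by linarith) (by linarith) hwre (by rw [hwim]; exact h)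
    rw [hwim] at h1
    have e2 : ‖Gammaℝ (w + 2 * x)‖ = ‖Gammaℝ (⟨1 / 2 + x, -t⟩ + (k : ℂ))‖ := by
      have e3 : ⟨1 / 2 + x, -t⟩ + (k : ℂ) = (starRingEnd ℂ) (w + 2 * x) := by
        apply Complex.ext
        · simp [hw]; ring
        · simp [hw]
      rw [e3, Gammaℝ_def, Gammaℝ_def, norm_mul, norm_mul,
        Complex.norm_cpow_eq_rpow_re_of_pos Real.pi_pos, Complex.norm_cpow_eq_rpow_re_of_pos Real.pi_pos]
      have e4 : (-(starRingEnd ℂ) (w + 2 * x) / 2).re = (-(w + 2 * x) / 2).re := by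
        simp
      have e5 : (starRingEnd ℂ) (w + 2 * x) / 2 = (starRingEnd ℂ) ((w + 2 * x) / 2) := by
        rw [map_div₀, map_ofNat]
      rw [e4, e5, Complex.Gamma_conj, Complex.norm_conj]
    rw [e2] at h1
    have h3 : (1 + |t|) ^ x ≤ 2 * |t| ^ x := by
      calc (1 + |t|) ^ x ≤ (2 * |t|) ^ x := Real.rpow_le_rpow (by positivity) (by linarith) (by linarith)
        _ = 2 ^ x * |t| ^ x := Real.mul_rpow (by norm_num) (by positivity)
        _ ≤ 2 ^ (1 : ℝ) * |t| ^ x := by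
            apply mul_le_mul_of_nonneg_right _ (by positivity)
            exact Real.rpow_le_rpow_of_exponent_le (by norm_num) (by linarith)
        _ = _ := by rw [Real.rpow_one]
    calc min (1 / 2000) (F t0 / 2) * (1 + |t|) ^ x ≤ 1 / 2000 * (2 * |t| ^ x) := by
          apply mul_le_mul (min_le_left _ _) h3 (by positivity) (by norm_num)
      _ ≤ 1 / 2000 * (2 * (1000 * (‖Gammaℝ (⟨1 / 2 + x, -t⟩ + (k : ℂ))‖ * ‖(Gammaℝ w)⁻¹‖))) := by
          gcongr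
      _ = _ := by ring
  · have h1 : F t0 ≤ F t := ht0 (abs_le.1 h)
    have h3 : (1 + |t|) ^ x ≤ 2 := by
      calc (1 + |t|) ^ x ≤ 2 ^ x := Real.rpow_le_rpow (by positivity) (by linarith) (by linarith)
        _ ≤ 2 ^ (1 : ℝ) := Real.rpow_le_rpow_of_exponent_le (by norm_num) (by linarith)
        _ = 2 := Real.rpow_one 2
    have hF0 := hFpos t0
    calc min (1 / 2000) (F t0 / 2) * (1 + |t|) ^ x ≤ F t0 / 2 * 2 :=
          mul_le_mul (min_le_right _ _) h3 (by positivity) (by positivity)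
      _ = F t0 := by ring
      _ ≤ F t := h1

/-- the lower bound of the L-functions on the left -/
theorem left_AL (R d : ℕ) {x : ℝ} (hx0 : 1 / 2 < x) (hx1 : x ≤ 3 / 4) : ∃ c : ℝ, 0 < c ∧
    ∀ (A : AM R d) (t : ℝ), c * QQ A t ^ x ≤ ‖A.L ⟨1 / 2 - x, t⟩‖ := by
  obtain ⟨B, hB1, hB⟩ := right_AL R d (a := 1 / 2 + x) (by linarith)
  have hall : ∀ m : ℕ, ∃ c : ℝ, 0 < c ∧ ∀ t : ℝ, c * (1 + |t|) ^ x ≤
      ‖(Gammaℝ (⟨1 / 2 - x, t⟩ + (((m : ℝ) / 2 : ℝ) : ℂ)))⁻¹‖ *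
        ‖Gammaℝ (⟨1 / 2 + x, -t⟩ + (((m : ℝ) / 2 : ℝ) : ℂ))‖ := by
    intro m
    apply gam_low_all hx0 hx1
    rcases Nat.eq_zero_or_pos m with h | h
    · left
      rw [h]
      simp
    · right
      have : (1 : ℝ) ≤ m := by exact_mod_cast h
      linarith
  choose cf hcf0 hcf using hall
  obtain ⟨m0, -, hm0⟩ := Finset.exists_min_image (Finset.range (R + 1)) cf ⟨0, by simp⟩
  set c : ℝ := cf m0 with hc
  have hcpos : 0 < c := hcf0 m0
  refine ⟨c ^ d / B, by positivity, fun A t => ?_⟩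
  have hfe := A.fe ⟨1 / 2 - x, t⟩
  have e1 : (1 : ℂ) - ⟨1 / 2 - x, t⟩ = ⟨1 / 2 + x, -t⟩ := by
    apply Complex.ext
    · simp; ring
    · simp
  have e2 : (1 : ℂ) - (starRingEnd ℂ) ⟨1 / 2 - x, t⟩ = ⟨1 / 2 + x, t⟩ := by
    apply Complex.ext
    · simp; ring
    · simp
  rw [e1, e2] at hfe
  have h2 := congrArg norm hfe
  rw [norm_mul, norm_mul, norm_mul, norm_mul, A.W_norm, RCLike.norm_conj, one_mul, norm_prod,
    norm_prod] at h2
  have e3 : ‖(A.N : ℂ) ^ (1 / 2 - (⟨1 / 2 - x, t⟩ : ℂ))‖ = (A.N : ℝ) ^ x := by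
    rw [Complex.norm_natCast_cpow_of_pos (by have := A.one_le; omega)]
    congr 1
    rw [sub_re]
    show (1 / 2 : ℂ).re - (1 / 2 - x) = x
    have : (1 / 2 : ℂ).re = 1 / 2 := by norm_num
    rw [this]
    ring
  rw [e3] at h2
  have hG : ∀ j, 0 < ‖Gammaℝ (⟨1 / 2 + x, -t⟩ + (((A.m j : ℝ) / 2 : ℝ) : ℂ))‖ := by
    intro j
    apply norm_pos_iff.2
    apply Gammaℝ_ne_zero_of_re_pos
    rw [add_re, ofReal_re]
    show 0 < 1 / 2 + x + (A.m j : ℝ) / 2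
    have : (0 : ℝ) ≤ (A.m j : ℝ) / 2 := by positivity
    linarith
  have hGp : 0 < ∏ j, ‖Gammaℝ (⟨1 / 2 + x, -t⟩ + (((A.m j : ℝ) / 2 : ℝ) : ℂ))‖ := Finset.prod_pos fun j _ => hG j
  have e4 : ∏ j, ‖(Gammaℝ (⟨1 / 2 + x, -t⟩ + (((A.m j : ℝ) / 2 : ℝ) : ℂ)))⁻¹‖ =
      (∏ j, ‖Gammaℝ (⟨1 / 2 + x, -t⟩ + (((A.m j : ℝ) / 2 : ℝ) : ℂ))‖)⁻¹ := by
    rw [← Finset.prod_inv_distrib]
    apply Finset.prod_congr rfl
    intro j _
    rw [norm_inv]
  rw [e4, ← div_eq_mul_inv, div_eq_iff hGp.ne'] at h2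
  rw [h2]
  have h3 : c ^ d * ((1 + |t|) ^ d) ^ x ≤ (∏ j, ‖(Gammaℝ (⟨1 / 2 - x, t⟩ + (((A.m j : ℝ) / 2 : ℝ) : ℂ)))⁻¹‖) *
      ∏ j, ‖Gammaℝ (⟨1 / 2 + x, -t⟩ + (((A.m j : ℝ) / 2 : ℝ) : ℂ))‖ := by
    rw [← Finset.prod_mul_distrib]
    have e5 : c ^ d * ((1 + |t|) ^ d) ^ x = ∏ _j : Fin d, (c * (1 + |t|) ^ x) := by
      rw [Finset.prod_const, Finset.card_univ, Fintype.card_fin, mul_pow]
      congr 1
      rw [← Real.rpow_natCast, ← Real.rpow_natCast, ← Real.rpow_mul (by positivity),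
        ← Real.rpow_mul (by positivity), mul_comm]
    rw [e5]
    apply Finset.prod_le_prod (fun _ _ => by positivity)
    intro j _
    have hle : c ≤ cf (A.m j) := hm0 _ (by
      rw [Finset.mem_range]
      have := A.m_le j
      omega)
    exact (mul_le_mul_of_nonneg_right hle (by positivity)).trans (hcf (A.m j) t)
  have hR := (hB A ⟨1 / 2 + x, t⟩ le_rfl).2
  have hN0 : (0 : ℝ) ≤ A.N := Nat.cast_nonneg _
  have hB0 : 0 < B := by linarith
  calc c ^ d / B * QQ A t ^ x = (A.N : ℝ) ^ x * (1 / B) * (c ^ d * ((1 + |t|) ^ d) ^ x) := by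
        unfold QQ
        rw [Real.mul_rpow hN0 (by positivity)]
        ring
    _ ≤ (A.N : ℝ) ^ x * ‖A.L ⟨1 / 2 + x, t⟩‖ *
        ((∏ j, ‖(Gammaℝ (⟨1 / 2 - x, t⟩ + (((A.m j : ℝ) / 2 : ℝ) : ℂ)))⁻¹‖) *
          ∏ j, ‖Gammaℝ (⟨1 / 2 + x, -t⟩ + (((A.m j : ℝ) / 2 : ℝ) : ℂ))‖) := by
        apply mul_le_mul _ h3 (by positivity) (by positivity)
        exact mul_le_mul_of_nonneg_left hR (by positivity)
    _ = _ := by ring

/-- `L(1/2+it) ≪ (N (1+|t|)^d)^(κ+ε)` on a class -/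
def SubA {R d : ℕ} (S : AM R d → Prop) (κ : ℝ) : Prop := ∀ ε : ℝ, 0 < ε → ∃ C : ℝ, ∀ A : AM R d, S A →
  ∀ t : ℝ, ‖A.L ⟨1 / 2, t⟩‖ ≤ C * QQ A t ^ (κ + ε)

theorem sub_quarter (R d : ℕ) : SubA (R := R) (d := d) (fun _ => True) (1 / 4) := by
  intro ε hε
  obtain ⟨C, -, hC⟩ := convex_AL R d ε hε
  exact ⟨C, fun A _ t => hC A t⟩

theorem QQ_gauss {R d : ℕ} (A : AM R d) (T y : ℝ) {r : ℝ} (hr : 0 ≤ r) :
    QQ A (T + y) ^ r * Real.exp (-y ^ 2) ≤ Real.exp ((d * r) ^ 2) * QQ A T ^ r := by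
  have hQ := QQ_one A T
  have hQ' := QQ_one A (T + y)
  have h1 : QQ A (T + y) ^ r ≤ (1 + |y|) ^ (d * r : ℝ) * QQ A T ^ r := by
    calc QQ A (T + y) ^ r ≤ ((1 + |y|) ^ (d : ℝ) * QQ A T) ^ r :=
          Real.rpow_le_rpow (by linarith) (QQ_shift A T y) hr
      _ = ((1 + |y|) ^ (d : ℝ)) ^ r * QQ A T ^ r := Real.mul_rpow (by positivity) (by linarith)
      _ = _ := by rw [← Real.rpow_mul (by positivity)]
  have h2 := pow_gauss (r := d * r) (by positivity) y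
  calc QQ A (T + y) ^ r * Real.exp (-y ^ 2)
      ≤ ((1 + |y|) ^ (d * r : ℝ) * QQ A T ^ r) * Real.exp (-y ^ 2) := by gcongr
    _ = ((1 + |y|) ^ (d * r : ℝ) * Real.exp (-y ^ 2)) * QQ A T ^ r := by ring
    _ ≤ _ := by gcongr

/-- polynomial growth in the strip -/
theorem growth_AL (R d : ℕ) : ∃ C : ℝ, 0 ≤ C ∧ ∀ (A : AM R d) (s : ℂ), -1 / 4 ≤ s.re → s.re ≤ 5 / 4 →
    ‖A.L s‖ ≤ C * QQ A s.im ^ (3 / 4 : ℝ) := by
  obtain ⟨B, hB1, hB⟩ := right_AL R d (a := 5 / 4) (by norm_num)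
  obtain ⟨C, hC0, hC⟩ := pl (afam R d) (a := -1 / 4) (b := 5 / 4) (ea := 3 / 4) (eb := 0)
    (Ca := (16 * ((R : ℝ) + 1)) ^ d * B) (Cb := B) (by norm_num) (by norm_num) (by norm_num) (by norm_num) le_rfl
    (by positivity) (by linarith)
  refine ⟨C, hC0, fun A s hs1 hs2 => ?_⟩
  have h1 := hC A (fun u => by
      have := refl_AL A (x := 3 / 4) (t := u) (by norm_num) (by norm_num)
      have e1 : ((1 : ℝ) / 2 - 3 / 4) = -1 / 4 := by norm_num
      have e2 : ((1 : ℝ) / 2 + 3 / 4) = 5 / 4 := by norm_num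
      rw [e1, e2] at this
      have h2 := (hB A ⟨5 / 4, u⟩ le_rfl).1
      have hQ := QQ_one A u
      calc ‖A.L ⟨-1 / 4, u⟩‖ ≤ _ := this
        _ ≤ (16 * ((R : ℝ) + 1)) ^ d * QQ A u ^ (3 / 4 : ℝ) * B := by gcongr
        _ = _ := by ring)
    (fun u => by
      rw [Real.rpow_zero, mul_one]
      exact (hB A ⟨5 / 4, u⟩ le_rfl).1)
    s hs1 hs2
  refine h1.trans ?_
  apply mul_le_mul_of_nonneg_left _ hC0
  apply Real.rpow_le_rpow_of_exponent_le (QQ_one A _)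
  have : ((0 : ℝ) - 3 / 4) / (5 / 4 - -1 / 4) * (s.re - -1 / 4) ≤ 0 := by
    apply mul_nonpos_of_nonpos_of_nonneg
    · norm_num
    · linarith
  linarith

/-- the normalised function -/
noncomputable def fT {R d : ℕ} (A : AM R d) (T : ℝ) (z : ℂ) : ℂ :=
  A.L ((1 / 2 + T * I) + z) * cexp (z ^ 2)

theorem fT_diff {R d : ℕ} (A : AM R d) (T : ℝ) : Differentiable ℂ (fT A T) := by
  unfold fT
  apply Differentiable.mul
  · exact A.diff.comp (by fun_prop : Differentiable ℂ fun z : ℂ => (1 / 2 + T * I) + z)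
  · fun_prop

theorem fT_norm {R d : ℕ} (A : AM R d) (T : ℝ) (z : ℂ) :
    ‖fT A T z‖ = ‖A.L ⟨1 / 2 + z.re, T + z.im⟩‖ *
      (Real.exp (z.re ^ 2) * Real.exp (-z.im ^ 2)) := by
  have e1 : (1 / 2 + T * I) + z = ⟨1 / 2 + z.re, T + z.im⟩ := by
    apply Complex.ext <;> simp
  unfold fT
  rw [e1, norm_mul, norm_exp_sq]

theorem countA {R d : ℕ} {S : AM R d → Prop} {κ s v ε : ℝ} (h0 : 0 ≤ κ) (h1 : κ ≤ 1 / 4) (hs0 : 0 < s)
    (hs1 : s < 1) (hv0 : 0 ≤ v) (hv1 : v < 1 / 2) (hg : SubA S κ) (hε : 0 < ε) :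
    ∃ h C : ℝ, 0 < h ∧ ∀ A : AM R d, S A → ∀ (T : ℝ) (F : Finset ℂ),
      (∀ x ∈ F, v ≤ |x.re| ∧ |x.re| ≤ 1 / 2 ∧ |x.im| ≤ h) →
      ∑ x ∈ F, (analyticOrderNatAt (fT A T) x : ℝ) ≤
        (gg κ s (Real.cos (Real.pi * v)) + ε) * Real.log (QQ A T) + C := by
  obtain ⟨δ, ε₂, h, hδ0, hδ1, hε₂0, hε₂1, hh0, H⟩ := dens_final h0 h1 hs0 hs1 hv0 hv1 hε
  obtain ⟨C0, hC0⟩ := hg (ε₂ / 2) (half_pos hε₂0)
  obtain ⟨A1, hA1, hR1⟩ := right_AL R d (a := 1 + δ) (by linarith)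
  obtain ⟨A2, hA2, hR2⟩ := right_AL R d (a := 1 + δ / 2) (by linarith)
  obtain ⟨c, hc, hL⟩ := left_AL R d (x := 1 / 2 + δ / 2) (by linarith) (by linarith)
  obtain ⟨G0, hG0, hG⟩ := growth_AL R d
  set r : ℝ := κ + ε₂ / 2 with hr
  have hr0 : 0 ≤ r := by rw [hr]; positivity
  set b : ℝ := 1 / 2 + δ with hb
  have hb0 : 1 / 2 < b := by rw [hb]; linarith
  have hb1 : b ≤ 3 / 4 := by rw [hb]; linarith
  set C1 : ℝ := max C0 1 with hC1
  have hC11 : 1 ≤ C1 := le_max_right _ _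
  set A3 : ℝ := C1 * Real.exp ((d * r) ^ 2) with hA3
  have hA30 : 0 < A3 := by positivity
  set A4 : ℝ := (16 * ((R : ℝ) + 1)) ^ d * A1 ^ 2 * Real.exp 2 * Real.exp ((d * b) ^ 2) with hA4
  have hA40 : 0 < A4 := by positivity
  set A5 : ℝ := A2 / c with hA5
  have hA20 : 0 < A2 := by linarith
  have hA50 : 0 < A5 := by positivity
  set x0 : ℝ := 1 / 2 + δ / 2 with hx0
  set K : ℝ := 1 + A3 ^ 2 + A4 + A5 with hK
  have hK1 : 1 ≤ K := by
    have := sq_nonneg A3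
    rw [hK]; linarith
  obtain ⟨C, hC⟩ := H K hK1
  refine ⟨h, C, hh0, fun A hS T F hF => ?_⟩
  set Q : ℝ := QQ A T with hQ
  have hQ1 : 1 ≤ Q := QQ_one A T
  have hQ0 : 0 < Q := by linarith
  apply hC Q hQ1 (fT A T) (fT_diff A T) F hF
  · -- boundedness in the strip
    refine ⟨G0 * Real.exp 1 * (Real.exp ((d * (3 / 4)) ^ 2) * Q ^ (3 / 4 : ℝ)), fun z hz => ?_⟩
    have hz' := abs_le.1 hz
    rw [fT_norm]
    have h3 := hG A ⟨1 / 2 + z.re, T + z.im⟩ (by show -1 / 4 ≤ 1 / 2 + z.re; linarith)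
      (by show 1 / 2 + z.re ≤ 5 / 4; linarith)
    have h5 : Real.exp (z.re ^ 2) ≤ Real.exp 1 := by
      apply Real.exp_le_exp.2
      nlinarith [abs_nonneg z.re, sq_abs z.re]
    have h6 := QQ_gauss A T z.im (r := 3 / 4) (by norm_num)
    calc ‖A.L ⟨1 / 2 + z.re, T + z.im⟩‖ * (Real.exp (z.re ^ 2) * Real.exp (-z.im ^ 2))
        ≤ (G0 * QQ A (T + z.im) ^ (3 / 4 : ℝ)) * (Real.exp 1 * Real.exp (-z.im ^ 2)) := by
          apply mul_le_mul h3 _ (by positivity) _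
          · exact mul_le_mul_of_nonneg_right h5 (Real.exp_pos _).le
          · have := QQ_one A (T + z.im)
            positivity
      _ = G0 * Real.exp 1 * (QQ A (T + z.im) ^ (3 / 4 : ℝ) * Real.exp (-z.im ^ 2)) := by ring
      _ ≤ _ := by gcongr
  · -- the critical line
    have key : ∀ z : ℂ, z.re = 0 → ‖fT A T z‖ ≤ A3 * Q ^ r := by
      intro z hz
      rw [fT_norm, hz]
      have h3 := hC0 A hS (T + z.im)
      have h6 := QQ_gauss A T z.im (r := r) hr0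
      have e0 : (1 / 2 + (0:ℝ)) = 1 / 2 := by norm_num
      have hQ' := QQ_one A (T + z.im)
      rw [e0]
      calc ‖A.L ⟨1 / 2, T + z.im⟩‖ * (Real.exp (0 ^ 2) * Real.exp (-z.im ^ 2))
          ≤ (C1 * QQ A (T + z.im) ^ r) * (Real.exp (0 ^ 2) * Real.exp (-z.im ^ 2)) := by
            apply mul_le_mul_of_nonneg_right _ (by positivity)
            refine h3.trans ?_
            apply mul_le_mul_of_nonneg_right (le_max_left _ _) (by positivity)
        _ = C1 * (QQ A (T + z.im) ^ r * Real.exp (-z.im ^ 2)) := by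
            rw [zero_pow (by norm_num), Real.exp_zero]
            ring
        _ ≤ C1 * (Real.exp ((d * r) ^ 2) * Q ^ r) := by gcongr
        _ = _ := by rw [hA3]; ring
    intro z hz
    have h3 := key z hz
    have h4 := key (-z) (by rw [neg_re, hz, neg_zero])
    have h5 : Q ^ r * Q ^ r = Q ^ (2 * κ + ε₂) := by
      rw [← Real.rpow_add hQ0]
      congr 1
      rw [hr]
      ring
    calc ‖fT A T z‖ * ‖fT A T (-z)‖ ≤ (A3 * Q ^ r) * (A3 * Q ^ r) :=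
          mul_le_mul h3 h4 (norm_nonneg _) (by positivity)
      _ = A3 ^ 2 * Q ^ (2 * κ + ε₂) := by rw [← h5]; ring
      _ ≤ K * Q ^ (2 * κ + ε₂) := by
          apply mul_le_mul_of_nonneg_right _ (by positivity)
          rw [hK]
          linarith
  · -- the boundary of the strip
    intro z hz
    have hbsq : b ^ 2 ≤ 1 := by nlinarith
    have hexpb : Real.exp (b ^ 2) ≤ Real.exp 1 := Real.exp_le_exp.2 hbsq
    have hbe : 1 / 2 + b = 1 + δ := by rw [hb]; ring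
    have h3 : ‖fT A T z‖ ≤ A1 * Real.exp 1 := by
      rw [fT_norm, hz, hbe]
      have h4 := (hR1 A ⟨1 + δ, T + z.im⟩ le_rfl).1
      have h5 : Real.exp (-z.im ^ 2) ≤ 1 := by
        rw [Real.exp_le_one_iff]
        nlinarith [sq_nonneg z.im]
      calc ‖A.L ⟨1 + δ, T + z.im⟩‖ *
            (Real.exp (b ^ 2) * Real.exp (-z.im ^ 2)) ≤ A1 * (Real.exp 1 * 1) := by gcongr
        _ = _ := by ring
    have h4 : ‖fT A T (-z)‖ ≤ (16 * ((R : ℝ) + 1)) ^ d * A1 * Real.exp 1 * Real.exp ((d * b) ^ 2) * Q ^ b := by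
      rw [fT_norm, neg_re, neg_im, hz]
      have e0 : (1 / 2 + -b) = 1 / 2 - b := by ring
      have e1 : Real.exp ((-b) ^ 2) = Real.exp (b ^ 2) := by rw [neg_sq]
      rw [e0, e1]
      have h5 := refl_AL A (x := b) (t := T + -z.im) (by linarith) hb1
      have h6 := (hR1 A ⟨1 / 2 + b, T + -z.im⟩ (by rw [hbe])).1
      have h7 := QQ_gauss A T (-z.im) (r := b) (by linarith)
      have hQ' := QQ_one A (T + -z.im)
      calc ‖A.L ⟨1 / 2 - b, T + -z.im⟩‖ * (Real.exp (b ^ 2) * Real.exp (-(-z.im) ^ 2))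
          ≤ ((16 * ((R : ℝ) + 1)) ^ d * QQ A (T + -z.im) ^ b * A1) * (Real.exp 1 * Real.exp (-(-z.im) ^ 2)) := by
            gcongr
            exact h5.trans (by gcongr)
        _ = (16 * ((R : ℝ) + 1)) ^ d * A1 * Real.exp 1 * (QQ A (T + -z.im) ^ b * Real.exp (-(-z.im) ^ 2)) := by ring
        _ ≤ (16 * ((R : ℝ) + 1)) ^ d * A1 * Real.exp 1 * (Real.exp ((d * b) ^ 2) * Q ^ b) := by gcongr
        _ = _ := by ring
    have h5 : Q ^ b ≤ Q ^ (b + ε₂) := Real.rpow_le_rpow_of_exponent_le hQ1 (by linarith)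
    have h6 : Real.exp 1 * Real.exp 1 = Real.exp 2 := by rw [← Real.exp_add]; norm_num
    calc ‖fT A T z‖ * ‖fT A T (-z)‖ ≤ (A1 * Real.exp 1) *
          ((16 * ((R : ℝ) + 1)) ^ d * A1 * Real.exp 1 * Real.exp ((d * b) ^ 2) * Q ^ b) :=
          mul_le_mul h3 h4 (norm_nonneg _) (by positivity)
      _ = (16 * ((R : ℝ) + 1)) ^ d * A1 ^ 2 * (Real.exp 1 * Real.exp 1) * Real.exp ((d * b) ^ 2) * Q ^ b := by ring
      _ = A4 * Q ^ b := by rw [h6]
      _ ≤ K * Q ^ (b + ε₂) := by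
          apply mul_le_mul _ h5 (by positivity) (by linarith)
          rw [hK]
          linarith [sq_nonneg A3]
  · -- the lower bound
    have hx0e : 1 / 2 + x0 = 1 + δ / 2 := by rw [hx0]; ring
    have h3 : 1 / A2 ≤ ‖fT A T (x0 : ℂ)‖ := by
      rw [fT_norm]
      simp only [ofReal_re, ofReal_im, add_zero]
      have h4 := (hR2 A ⟨1 / 2 + x0, T⟩ (by rw [hx0e])).2
      have h5 : 1 ≤ Real.exp (x0 ^ 2) := Real.one_le_exp (sq_nonneg _)
      have h6 : Real.exp (-(0:ℝ) ^ 2) = 1 := by norm_num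
      rw [h6, mul_one]
      calc 1 / A2 ≤ ‖A.L ⟨1 / 2 + x0, T⟩‖ := h4
        _ = ‖A.L ⟨1 / 2 + x0, T⟩‖ * 1 := (mul_one _).symm
        _ ≤ _ := mul_le_mul_of_nonneg_left h5 (norm_nonneg _)
    have h7 : c * Q ^ x0 ≤ ‖fT A T (-(x0 : ℂ))‖ := by
      rw [fT_norm]
      have e1 : (-(x0 : ℂ)).re = -x0 := by simp
      have e2 : (-(x0 : ℂ)).im = 0 := by simp
      rw [e1, e2, add_zero]
      have h5 : 1 ≤ Real.exp ((-x0) ^ 2) := Real.one_le_exp (sq_nonneg _)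
      have h6 : Real.exp (-(0:ℝ) ^ 2) = 1 := by norm_num
      have e0 : (1 / 2 + -x0) = 1 / 2 - x0 := by ring
      rw [h6, mul_one, e0]
      calc c * Q ^ x0 ≤ ‖A.L ⟨1 / 2 - x0, T⟩‖ := hL A T
        _ = _ * 1 := (mul_one _).symm
        _ ≤ _ := mul_le_mul_of_nonneg_left h5 (norm_nonneg _)
    calc K⁻¹ * Q ^ (x0 - ε₂) ≤ A5⁻¹ * Q ^ x0 := by
          apply mul_le_mul _ _ (by positivity) (by positivity)
          · apply inv_anti₀ hA50
            rw [hK]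
            linarith [sq_nonneg A3]
          · exact Real.rpow_le_rpow_of_exponent_le hQ1 (by linarith)
      _ = (1 / A2) * (c * Q ^ x0) := by
          rw [hA5]
          field_simp
      _ ≤ _ := mul_le_mul h3 h7 (by positivity) (norm_nonneg _)

/-- the order of `fT` and the order of the L-function -/
theorem order_fT {R d : ℕ} (A : AM R d) (T : ℝ) (s : ℂ) :
    analyticOrderAt (fT A T) (s - (1 / 2 + T * I)) = analyticOrderAt A.L s := by
  set c : ℂ := 1 / 2 + T * I with hc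
  set x : ℂ := s - c with hx
  have hcx : c + x = s := by rw [hx]; ring
  have e1 : fT A T = (A.L ∘ fun z => c + z) * fun z => cexp (z ^ 2) := by
    funext z
    rfl
  have ha1 : AnalyticAt ℂ (A.L ∘ fun z => c + z) x :=
    (A.diff.comp (by fun_prop : Differentiable ℂ fun z : ℂ => c + z)).analyticAt x
  have ha2 : AnalyticAt ℂ (fun z => cexp (z ^ 2)) x := by
    have : Differentiable ℂ fun z : ℂ => cexp (z ^ 2) := by fun_prop
    exact this.analyticAt x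
  have h2 : analyticOrderAt (fun z => cexp (z ^ 2)) x = 0 := by
    rw [ha2.analyticOrderAt_eq_zero]
    exact exp_ne_zero _
  rw [e1, analyticOrderAt_mul ha1 ha2, h2, add_zero]
  have h3 : analyticOrderAt (A.L ∘ fun z => c + z) x = analyticOrderAt A.L (c + x) := by
    apply analyticOrderAt_comp_of_deriv_ne_zero (g := fun z : ℂ => c + z)
    · have : Differentiable ℂ fun z : ℂ => c + z := by fun_prop
      exact this.analyticAt x
    · rw [deriv_const_add, deriv_id'']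
      exact one_ne_zero
  rw [h3, hcx]

theorem order_ne_topA {R d : ℕ} (A : AM R d) (s : ℂ) : analyticOrderAt A.L s ≠ ⊤ := by
  have hL : AnalyticOnNhd ℂ A.L univ := fun z _ => A.diff.analyticAt z
  have h2 : analyticOrderAt A.L 2 ≠ ⊤ := by
    have h3 : A.L 2 ≠ 0 := by
      obtain ⟨B, hB1, hB⟩ := right_AL R d (a := 2) (by norm_num)
      have h4 := (hB A 2 (by norm_num)).2
      intro h5
      rw [h5, norm_zero] at h4
      have : 0 < 1 / B := by positivity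
      linarith
    rw [(hL 2 (mem_univ _)).analyticOrderAt_eq_zero.2 h3]
    exact ENat.zero_ne_top
  exact hL.analyticOrderAt_ne_top_of_isPreconnected isPreconnected_univ (mem_univ _) (mem_univ _) h2

/-- the zeros with `0 < Re s < 1`, `|Re s - 1/2| ≥ v`, `|Im s - T| ≤ h` -/
def ZA {R d : ℕ} (A : AM R d) (v T h : ℝ) : Set ℂ :=
  {s : ℂ | A.L s = 0 ∧ 0 < s.re ∧ s.re < 1 ∧ v ≤ |s.re - 1 / 2| ∧ |s.im - T| ≤ h}

/-- **the number of zeros in a short window** -/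
theorem windowA {R d : ℕ} {S : AM R d → Prop} {κ s v ε : ℝ} (h0 : 0 ≤ κ) (h1 : κ ≤ 1 / 4) (hs0 : 0 < s)
    (hs1 : s < 1) (hv0 : 0 ≤ v) (hv1 : v < 1 / 2) (hg : SubA S κ) (hε : 0 < ε) :
    ∃ h C : ℝ, 0 < h ∧ ∀ A : AM R d, S A → ∀ T : ℝ, (ZA A v T h).Finite ∧
      ((∑ᶠ s ∈ ZA A v T h, analyticOrderNatAt A.L s : ℕ) : ℝ) ≤
        (gg κ s (Real.cos (Real.pi * v)) + ε) * Real.log (QQ A T) + C := by
  classical
  obtain ⟨h, C, hh, H⟩ := countA h0 h1 hs0 hs1 hv0 hv1 hg hε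
  refine ⟨h, C, hh, fun A hS T => ?_⟩
  have hfin : ∀ F : Finset ℂ, (F : Set ℂ) ⊆ ZA A v T h →
      ∑ s ∈ F, (analyticOrderNatAt A.L s : ℝ) ≤
        (gg κ s (Real.cos (Real.pi * v)) + ε) * Real.log (QQ A T) + C := by
    intro F hF
    have h2 := H A hS T (F.image fun s => s - (1 / 2 + T * I)) (by
      intro x hx
      obtain ⟨s, hs, rfl⟩ := Finset.mem_image.1 hx
      have h3 := hF hs
      have e1 : (s - (1 / 2 + T * I)).re = s.re - 1 / 2 := by simp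
      have e2 : (s - (1 / 2 + T * I)).im = s.im - T := by simp
      rw [e1, e2]
      refine ⟨h3.2.2.2.1, ?_, h3.2.2.2.2⟩
      have h4 := h3.2.1
      have h5 := h3.2.2.1
      rw [abs_le]
      constructor <;> linarith)
    rw [Finset.sum_image (fun x _ y _ hxy => sub_left_injective hxy)] at h2
    refine le_trans (le_of_eq ?_) h2
    apply Finset.sum_congr rfl
    intro s hs
    unfold analyticOrderNatAt
    rw [order_fT A T s]
  have hone : ∀ s ∈ ZA A v T h, (1:ℝ) ≤ (analyticOrderNatAt A.L s : ℝ) := by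
    intro s hs
    have h2 : analyticOrderAt A.L s ≠ 0 := (A.diff.analyticAt s).analyticOrderAt_ne_zero.2 hs.1
    have h3 := order_ne_topA A s
    have h4 : analyticOrderNatAt A.L s ≠ 0 := by
      intro h5
      apply h2
      rw [← Nat.cast_analyticOrderNatAt h3, h5]
      rfl
    exact_mod_cast Nat.one_le_iff_ne_zero.2 h4
  have hZfin : (ZA A v T h).Finite := by
    by_contra hinf
    have hinf' : (ZA A v T h).Infinite := hinf
    obtain ⟨n, hn⟩ := exists_nat_gt ((gg κ s (Real.cos (Real.pi * v)) + ε) * Real.log (QQ A T) + C)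
    obtain ⟨F, hF, hcard⟩ := hinf'.exists_subset_card_eq n
    have h2 := hfin F hF
    have h3 : (n:ℝ) ≤ ∑ s ∈ F, (analyticOrderNatAt A.L s : ℝ) := by
      calc (n:ℝ) = ∑ _s ∈ F, (1:ℝ) := by rw [Finset.sum_const, hcard]; simp
        _ ≤ _ := Finset.sum_le_sum fun s hs => hone s (hF hs)
    linarith
  refine ⟨hZfin, ?_⟩
  rw [finsum_mem_eq_finite_toFinset_sum _ hZfin]
  push_cast
  apply hfin
  intro s hs
  exact (hZfin.mem_toFinset).1 hs

/-- the symmetry of the zeros -/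
theorem order_symmA {R d : ℕ} (A : AM R d) {s : ℂ} (hs0 : 0 < s.re) (hs1 : s.re < 1) :
    analyticOrderAt A.L (1 - (starRingEnd ℂ) s) = analyticOrderAt A.L s := by
  have hN0 : (A.N : ℂ) ≠ 0 := by
    have := A.one_le
    exact_mod_cast (by omega : A.N ≠ 0)
  set g : ℂ → ℂ := fun z => ∏ j, (Gammaℝ (z + (((A.m j : ℝ) / 2 : ℝ) : ℂ)))⁻¹ with hg
  have hgd : Differentiable ℂ g := by
    intro z
    simp only [hg]
    apply DifferentiableAt.fun_finsetProd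
    intro j _
    have h3 : Differentiable ℂ fun z : ℂ => z + (((A.m j : ℝ) / 2 : ℝ) : ℂ) := by fun_prop
    exact (differentiable_Gammaℝ_inv.comp h3).differentiableAt
  have hgne : ∀ z : ℂ, 0 < z.re → g z ≠ 0 := by
    intro z hz
    simp only [hg]
    apply Finset.prod_ne_zero_iff.2
    intro j _
    apply inv_ne_zero
    apply Gammaℝ_ne_zero_of_re_pos
    rw [add_re, ofReal_re]
    have : (0 : ℝ) ≤ (A.m j : ℝ) / 2 := by positivity
    linarith
  set u : ℂ → ℂ := fun z => A.W * (A.N : ℂ) ^ (1 / 2 - z) with hu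
  have hune : ∀ z, u z ≠ 0 := by
    intro z
    apply mul_ne_zero
    · intro h
      have := A.W_norm
      rw [h, norm_zero] at this
      exact zero_ne_one this
    · rw [Ne, cpow_eq_zero_iff]
      intro h
      exact hN0 h.1
  have hud : Differentiable ℂ u := by
    intro z
    simp only [hu]
    apply DifferentiableAt.const_mul
    exact DifferentiableAt.const_cpow (by fun_prop) (Or.inl hN0)
  have h1z : Differentiable ℂ fun z : ℂ => 1 - z := by fun_prop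
  have a1 : AnalyticAt ℂ A.L s := A.diff.analyticAt s
  have a2 : AnalyticAt ℂ (fun z => g (1 - z)) s := (hgd.comp h1z).analyticAt s
  have a3 : AnalyticAt ℂ u s := hud.analyticAt s
  have a4' : AnalyticAt ℂ A.L (1 - (starRingEnd ℂ) s) := A.diff.analyticAt _
  have a4 : AnalyticAt ℂ (H370.DL.refl A.L) s := H370.DL.analyticAt_refl a4'
  have a5 : AnalyticAt ℂ g s := hgd.analyticAt s
  have z2 : analyticOrderAt (fun z => g (1 - z)) s = 0 := by
    rw [a2.analyticOrderAt_eq_zero]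
    exact hgne _ (by rw [sub_re, one_re]; linarith)
  have z3 : analyticOrderAt u s = 0 := by
    rw [a3.analyticOrderAt_eq_zero]
    exact hune s
  have z5 : analyticOrderAt g s = 0 := by
    rw [a5.analyticOrderAt_eq_zero]
    exact hgne s hs0
  have hfun : A.L * (fun z => g (1 - z)) = u * (H370.DL.refl A.L * g) := by
    funext z
    have h := A.fe z
    simp only [Pi.mul_apply, hu, hg, H370.DL.refl]
    rw [h]
    ring
  have hord := congrArg (fun F => analyticOrderAt F s) hfun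
  beta_reduce at hord
  rw [analyticOrderAt_mul a1 a2, analyticOrderAt_mul a3 (a4.mul a5), analyticOrderAt_mul a4 a5,
    z2, z3, z5, add_zero, zero_add, add_zero, H370.DL.order_refl a4'] at hord
  exact hord.symm

/-- the zeros with `Re s ≥ σ`, `|Im s - T| ≤ h` -/
def ZR {R d : ℕ} (A : AM R d) (σ T h : ℝ) : Set ℂ :=
  {s : ℂ | A.L s = 0 ∧ σ ≤ s.re ∧ s.re < 1 ∧ |s.im - T| ≤ h}

theorem half_le {R d : ℕ} (A : AM R d) {σ T h : ℝ} (hσ : 1 / 2 < σ)
    (hfin : (ZA A (σ - 1 / 2) T h).Finite) : (ZR A σ T h).Finite ∧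
      2 * ∑ᶠ s ∈ ZR A σ T h, analyticOrderNatAt A.L s ≤
        ∑ᶠ s ∈ ZA A (σ - 1 / 2) T h, analyticOrderNatAt A.L s := by
  classical
  have hsub : ZR A σ T h ⊆ ZA A (σ - 1 / 2) T h := by
    rintro s ⟨h1, h2, h3, h4⟩
    refine ⟨h1, by linarith, h3, ?_, h4⟩
    rw [abs_of_pos (by linarith)]
    linarith
  have f2 := hfin.subset hsub
  refine ⟨f2, ?_⟩
  rw [finsum_mem_eq_finite_toFinset_sum _ hfin, finsum_mem_eq_finite_toFinset_sum _ f2]
  have hsymm : ∀ s ∈ f2.toFinset, analyticOrderAt A.L (1 - (starRingEnd ℂ) s) =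
      analyticOrderAt A.L s ∧ A.L (1 - (starRingEnd ℂ) s) = 0 := by
    intro s hs
    obtain ⟨h1, h2, h3, h4⟩ := f2.mem_toFinset.1 hs
    have k3 := order_symmA A (s := s) (by linarith) h3
    refine ⟨k3, ?_⟩
    have k4 : analyticOrderAt A.L s ≠ 0 := (A.diff.analyticAt s).analyticOrderAt_ne_zero.2 h1
    rw [← k3] at k4
    exact (A.diff.analyticAt _).analyticOrderAt_ne_zero.1 k4
  have hinj : Function.Injective fun s : ℂ => 1 - (starRingEnd ℂ) s := by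
    intro a b hab
    have h1 : 1 - (starRingEnd ℂ) a = 1 - (starRingEnd ℂ) b := hab
    have h2 : (starRingEnd ℂ) a = (starRingEnd ℂ) b := by linear_combination -h1
    exact (starRingEnd ℂ).injective h2
  have himg : ∑ s ∈ f2.toFinset.image (fun s => 1 - (starRingEnd ℂ) s), analyticOrderNatAt A.L s =
      ∑ s ∈ f2.toFinset, analyticOrderNatAt A.L s := by
    rw [Finset.sum_image (fun x _ y _ hxy => hinj hxy)]
    apply Finset.sum_congr rfl
    intro s hs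
    unfold analyticOrderNatAt
    rw [(hsymm s hs).1]
  have hdisj : Disjoint f2.toFinset (f2.toFinset.image (fun s => 1 - (starRingEnd ℂ) s)) := by
    rw [Finset.disjoint_left]
    intro s hs hs'
    obtain ⟨w, hw, rfl⟩ := Finset.mem_image.1 hs'
    have a1 := (f2.mem_toFinset.1 hs).2.1
    have a2 := (f2.mem_toFinset.1 hw).2.1
    rw [sub_re, one_re, conj_re] at a1
    linarith
  calc 2 * ∑ s ∈ f2.toFinset, analyticOrderNatAt A.L s
      = ∑ s ∈ f2.toFinset ∪ f2.toFinset.image (fun s => 1 - (starRingEnd ℂ) s),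
          analyticOrderNatAt A.L s := by
        rw [Finset.sum_union hdisj, himg]
        ring
    _ ≤ _ := by
        apply Finset.sum_le_sum_of_subset
        intro s hs
        rcases Finset.mem_union.1 hs with hs | hs
        · exact hfin.mem_toFinset.2 (hsub (f2.mem_toFinset.1 hs))
        · obtain ⟨w, hw, rfl⟩ := Finset.mem_image.1 hs
          obtain ⟨h1, h2, h3, h4⟩ := f2.mem_toFinset.1 hw
          apply hfin.mem_toFinset.2
          have e1 : (1 - (starRingEnd ℂ) w).re = 1 - w.re := by simp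
          have e2 : (1 - (starRingEnd ℂ) w).im = w.im := by simp
          refine ⟨(hsymm w hw).2, ?_, ?_, ?_, ?_⟩
          · rw [e1]; linarith
          · rw [e1]; linarith
          · rw [e1, abs_of_nonpos (by linarith)]; linarith
          · rw [e2]; exact h4

/-- **zeros off the line** -/
theorem offA {R d : ℕ} {S : AM R d → Prop} {κ σ ε : ℝ} (h0 : 0 < κ) (h1 : κ ≤ 1 / 4) (hσ0 : 1 / 2 < σ)
    (hσ1 : σ < 1) (hg : SubA S κ) (hε : 0 < ε) :
    ∃ h C : ℝ, 0 < h ∧ ∀ A : AM R d, S A → ∀ T : ℝ, (ZR A σ T h).Finite ∧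
      ((∑ᶠ s ∈ ZR A σ T h, analyticOrderNatAt A.L s : ℕ) : ℝ) ≤
        (DD κ (Real.sin (Real.pi * σ)) / 2 + ε) * Real.log (QQ A T) + C := by
  have hpi := Real.pi_pos
  have hu0 : 0 < Real.sin (Real.pi * σ) := by
    apply Real.sin_pos_of_pos_of_lt_pi (by positivity)
    nlinarith
  obtain ⟨s, hs0, hs1, hs⟩ := exists_s h0 h1 hu0 (Real.sin_le_one _) hε
  obtain ⟨h, C, hh, H⟩ := windowA (v := σ - 1 / 2) h0.le h1 hs0 hs1 (by linarith) (by linarith) hg hε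
  refine ⟨h, C / 2, hh, fun A hS T => ?_⟩
  obtain ⟨g1, g2⟩ := H A hS T
  obtain ⟨k1, k2⟩ := half_le A hσ0 g1
  refine ⟨k1, ?_⟩
  have k3 : (2 : ℝ) * ((∑ᶠ s ∈ ZR A σ T h, analyticOrderNatAt A.L s : ℕ) : ℝ) ≤
      ((∑ᶠ s ∈ ZA A (σ - 1 / 2) T h, analyticOrderNatAt A.L s : ℕ) : ℝ) := by exact_mod_cast k2
  rw [cos_shift] at g2
  have hl : 0 ≤ Real.log (QQ A T) := Real.log_nonneg (QQ_one A T)
  have k4 : (gg κ s (Real.sin (Real.pi * σ)) + ε) * Real.log (QQ A T) ≤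
      (DD κ (Real.sin (Real.pi * σ)) + 2 * ε) * Real.log (QQ A T) :=
    mul_le_mul_of_nonneg_right (by linarith) hl
  linarith

/-- **all zeros** -/
theorem allA {R d : ℕ} {S : AM R d → Prop} {κ ε : ℝ} (h0 : 0 < κ) (h1 : κ ≤ 1 / 4) (hg : SubA S κ)
    (hε : 0 < ε) :
    ∃ h C : ℝ, 0 < h ∧ ∀ A : AM R d, S A → ∀ T : ℝ, (ZA A 0 T h).Finite ∧
      ((∑ᶠ s ∈ ZA A 0 T h, analyticOrderNatAt A.L s : ℕ) : ℝ) ≤
        (DD κ 1 + ε) * Real.log (QQ A T) + C := by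
  obtain ⟨s, hs0, hs1, hs⟩ := exists_s (ε := ε / 2) h0 h1 one_pos le_rfl (by linarith)
  obtain ⟨h, C, hh, H⟩ := windowA (v := 0) (ε := ε / 2) h0.le h1 hs0 hs1 le_rfl (by norm_num) hg
    (by linarith)
  refine ⟨h, C, hh, fun A hS T => ?_⟩
  obtain ⟨g1, g2⟩ := H A hS T
  refine ⟨g1, ?_⟩
  rw [mul_zero, Real.cos_zero] at g2
  have hl : 0 ≤ Real.log (QQ A T) := Real.log_nonneg (QQ_one A T)
  have k4 : (gg κ s 1 + ε / 2) * Real.log (QQ A T) ≤ (DD κ 1 + ε) * Real.log (QQ A T) :=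
    mul_le_mul_of_nonneg_right (by linarith) hl
  linarith

end Pool.Agent.U985.BM
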